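import Pool.Agent.TH22.LT.M10
import Pool.Agent.TH272.WH.Sub

/-!
# Almost all reduced labelled oriented trees have aspherical complexes

A labelled oriented graph (LOG) with vertices `0, …, n-1` has `n - 1` edges, each with an initial
vertex `ini e`, a terminal vertex `ter e` and a label `lab e`; its 2-complex is the complex of the
presentation with generators the vertices and relators `i(e) λ(e) t(e)⁻¹ λ(e)⁻¹`. It is a labelled
oriented tree (LOT) if the underlying graph is a tree. If one more 2-cell is attached along one
generator, the result is a finite contractible 2-complex: it has `n` 1-cells and `n` 2-cells, and its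
fundamental group is trivial (part (1)). So the complex of a LOT and its subcomplexes are subcomplexes
of finite contractible 2-complexes, the case of Whitehead's question asked here.

The LOT is compressed if no edge is a loop or is labelled by one of its end points. It is reduced if
moreover two edges with the same initial vertex or with the same terminal vertex have different
labels, and every leaf is the label of some edge; every LOT complex is homotopy equivalent to the one
of a reduced LOT (Howie). The reduced LOTs are an exponentially small proportion of all LOTs. It is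
shown that

(2) all but the proportion `10^36 / n` of the reduced LOTs with `n` vertices, and
(3) all but the proportion `10^20 / n` of the compressed LOTs with `n` vertices

are diagrammatically reducible (this implies that the complex is aspherical), together with all their
subcomplexes, and that the same holds for the labellings of one fixed oriented tree:

(4) all but the proportion `10^23 S / n^2` of its reduced labellings,
(5) all but the proportion `10^15 S / n^2` of its compressed labellings,

where `S` is the sum of the seventh powers of the degrees of the vertices.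

The definitions `LOG`, `SphericalDiagram`, `Reduced`, `DR` are in `Pool.Agent.H891R2.RL.Defs` of the
starting library, the definition `word` in `Pool.Agent.TH272.WH.Triv`.
-/

set_option autoImplicit false

namespace Pool.Agent.Results.MP_6de9fc_gt.ReducedTrees

open Pool.Agent.H891R2.RL Pool.Agent.TH272.WH

/-- The underlying graph of a labelled oriented graph. -/
def graph {V E : Type} (L : LOG V E) : SimpleGraph V :=
  SimpleGraph.fromEdgeSet (Set.range fun e => s(L.ini e, L.ter e))

/-- A labelled oriented graph is reduced if every edge has two different end points and its label is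
none of them, two different edges with the same initial vertex or with the same terminal vertex have
different labels, and every vertex which is an end point of exactly one edge is the label of some
edge. -/
def RedLOG {V E : Type} (L : LOG V E) : Prop :=
  L.Compressed ∧
  (∀ e f, e ≠ f → (L.ini e = L.ini f ∨ L.ter e = L.ter f) → L.lab e ≠ L.lab f) ∧
  ∀ x, (∃! e, L.ini e = x ∨ L.ter e = x) → ∃ f, L.lab f = x

/-- Some subcomplex (containing the 1-skeleton) is not diagrammatically reducible. -/
def BadSub {V E : Type} (L : LOG V E) : Prop :=
  ∃ S : Set E, ¬ DR (fun e : S => L.rel e)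

theorem badSub_iff {V E : Type} (L : LOG V E) : BadSub L ↔ ¬ DR L.rel := by
  constructor
  · rintro ⟨S, hS⟩ h
    exact hS (dr_sub L.rel (fun e : S => (e : E)) Subtype.val_injective h)
  · intro h
    refine ⟨Set.univ, fun h2 => h ?_⟩
    exact dr_sub (fun e : (Set.univ : Set E) => L.rel e)
      (fun e => ⟨e, trivial⟩) (fun a b hab => Subtype.mk.inj hab) h2

/-- Killing one generator of the group of a labelled oriented tree gives the trivial group. -/
theorem triv' {V E : Type} (L : LOG V E) (hL : (graph L).IsTree) (v : V) :
    ∀ g : PresentedGroup (Set.range (fun e => word (L.rel e)) ∪ {FreeGroup.of v}), g = 1 := by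
  set R : Set (FreeGroup V) := Set.range (fun e => word (L.rel e)) ∪ {FreeGroup.of v} with hR
  have h0 : (PresentedGroup.of v : PresentedGroup R) = 1 :=
    PresentedGroup.one_of_mem (Or.inr rfl)
  have hrel : ∀ e, (PresentedGroup.of (L.ini e) : PresentedGroup R) * PresentedGroup.of (L.lab e) *
      (PresentedGroup.of (L.ter e))⁻¹ * (PresentedGroup.of (L.lab e))⁻¹ = 1 := by
    intro e
    have h1 : PresentedGroup.mk R (word (L.rel e)) = 1 :=
      PresentedGroup.one_of_mem (Or.inl ⟨e, rfl⟩)
    have hw : word (L.rel e) =
        FreeGroup.of (L.ini e) * FreeGroup.of (L.lab e) * (FreeGroup.of (L.ter e))⁻¹ *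
          (FreeGroup.of (L.lab e))⁻¹ := by
      unfold word LOG.rel
      simp [List.ofFn_succ, FreeGroup.of, FreeGroup.inv_mk, FreeGroup.invRev]
    rw [hw, map_mul, map_mul, map_mul, map_inv, map_inv] at h1
    exact h1
  have hadj : ∀ a b, (graph L).Adj a b → (PresentedGroup.of a : PresentedGroup R) = 1 →
      (PresentedGroup.of b : PresentedGroup R) = 1 := by
    intro a b hab ha
    unfold graph at hab
    rw [SimpleGraph.fromEdgeSet_adj] at hab
    obtain ⟨⟨e, he⟩, -⟩ := hab
    have hr := hrel e
    simp only [Sym2.eq_iff] at he
    rcases he with ⟨h1, h2⟩ | ⟨h1, h2⟩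
    · rw [h1, h2, ha] at hr
      simpa using hr
    · rw [h1, h2, ha] at hr
      simpa using hr
  have hreach : ∀ a b, (graph L).Reachable a b → (PresentedGroup.of a : PresentedGroup R) = 1 →
      (PresentedGroup.of b : PresentedGroup R) = 1 := by
    intro a b hab
    obtain ⟨w⟩ := hab
    induction w with
    | nil => exact id
    | cons h _ ih => exact fun ha => ih (hadj _ _ h ha)
  have hall : ∀ b, (PresentedGroup.of b : PresentedGroup R) = 1 := fun b =>
    hreach v b (hL.connected.preconnected v b) h0
  intro g
  have hcl : g ∈ Subgroup.closure (Set.range (PresentedGroup.of : V → PresentedGroup R)) := by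
    rw [PresentedGroup.closure_range_of]
    trivial
  have hle : Subgroup.closure (Set.range (PresentedGroup.of : V → PresentedGroup R)) ≤ ⊥ := by
    rw [Subgroup.closure_le]
    rintro _ ⟨b, rfl⟩
    exact hall b
  exact hle hcl

/-- **Almost all reduced labelled oriented trees are diagrammatically reducible**, and so are almost
all reduced labellings of one oriented tree with small degrees. -/
theorem result (n : ℕ) (hn : 3 ≤ n) :
    (∀ L : LOG (Fin n) (Fin (n - 1)), (graph L).IsTree → ∀ v : Fin n,
      ∀ g : PresentedGroup (Set.range (fun e => word (L.rel e)) ∪ {FreeGroup.of v}), g = 1) ∧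
    ({L : LOG (Fin n) (Fin (n - 1)) | (graph L).IsTree ∧ RedLOG L ∧ BadSub L}.ncard : ℝ) ≤
      10 ^ 36 / n *
        ({L : LOG (Fin n) (Fin (n - 1)) | (graph L).IsTree ∧ RedLOG L}.ncard : ℝ) ∧
    ({L : LOG (Fin n) (Fin (n - 1)) | (graph L).IsTree ∧ L.Compressed ∧ BadSub L}.ncard : ℝ) ≤
      10 ^ 20 / n *
        ({L : LOG (Fin n) (Fin (n - 1)) | (graph L).IsTree ∧ L.Compressed}.ncard : ℝ) ∧
    ∀ T : SimpleGraph (Fin n), T.IsTree → ∀ ini ter : T.edgeSet → Fin n,
      (∀ e, s(ini e, ter e) = e.1) →
      ({lab : T.edgeSet → Fin n | RedLOG (⟨ini, ter, lab⟩ : LOG (Fin n) T.edgeSet) ∧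
        BadSub (⟨ini, ter, lab⟩ : LOG (Fin n) T.edgeSet)}.ncard : ℝ) ≤
      10 ^ 23 * (∑ v : Fin n, ((T.neighborSet v).ncard : ℝ) ^ 7) / (n : ℝ) ^ 2 *
        ({lab : T.edgeSet → Fin n |
          RedLOG (⟨ini, ter, lab⟩ : LOG (Fin n) T.edgeSet)}.ncard : ℝ) ∧
      ({lab : T.edgeSet → Fin n | (⟨ini, ter, lab⟩ : LOG (Fin n) T.edgeSet).Compressed ∧
        BadSub (⟨ini, ter, lab⟩ : LOG (Fin n) T.edgeSet)}.ncard : ℝ) ≤
      10 ^ 15 * (∑ v : Fin n, ((T.neighborSet v).ncard : ℝ) ^ 7) / (n : ℝ) ^ 2 *
        ({lab : T.edgeSet → Fin n |
          (⟨ini, ter, lab⟩ : LOG (Fin n) T.edgeSet).Compressed}.ncard : ℝ) := by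
  refine ⟨fun L hL v => triv' L hL v, ?_, ?_, fun T hT ini ter he => ⟨?_, ?_⟩⟩
  · simp only [badSub_iff]
    exact Pool.Agent.TH22.LT.all_reduced n hn
  · simp only [badSub_iff]
    exact Pool.Agent.TH22.LT.all_trees n hn
  · simp only [badSub_iff]
    exact Pool.Agent.TH22.LT.fixed_reduced n hn T hT ini ter he
  · simp only [badSub_iff]
    exact Pool.Agent.TH22.LT.fixed_tree n hn T hT ini ter he

end Pool.Agent.Results.MP_6de9fc_gt.ReducedTrees
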